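import Pool.Agent.Lib.MP_87f021_gt.FC.Count

/-!
A ZFC example of a first countable dense-in-itself Hausdorff space of size continuum with a
point-countable base of clopen sets which is closed under finite intersections and cannot be
partitioned into two bases.
-/

set_option autoImplicit false

namespace Pool.Agent.Results.MP_87f021_gt.FirstCountable

open TopologicalSpace Pool.Agent.Lib.MP_87f021_gt

theorem result :
    ∃ (X : Type) (_ : TopologicalSpace X) (B : Set (Set X)),
      Nonempty X ∧ T1Space X ∧ T2Space X ∧ FirstCountableTopology X ∧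
      Cardinal.mk X = Cardinal.continuum ∧ (∀ x : X, ¬ IsOpen ({x} : Set X)) ∧
      IsTopologicalBasis B ∧ (∀ U ∈ B, IsClopen U) ∧ (∀ U ∈ B, ∀ V ∈ B, U ∩ V ∈ B) ∧
      (∀ x : X, Set.Countable {U | U ∈ B ∧ x ∈ U}) ∧
      (∀ U ∈ B, U.Nonempty → Set.Finite {V | V ∈ B ∧ U ⊆ V}) ∧
      ∀ B₀ B₁ : Set (Set X), B₀ ∪ B₁ = B → Disjoint B₀ B₁ →
        ¬ (IsTopologicalBasis B₀ ∧ IsTopologicalBasis B₁) := by
  have := t2
  exact ⟨X, inferInstance, B, nonempty_X, inferInstance, this, firstCountable, mk_X, no_isolated,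
    isBasis, isClopen_B, inter_mem_B, pointCountable, finite_supersets, not_resolvable⟩

end Pool.Agent.Results.MP_87f021_gt.FirstCountable
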